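import Mathlib
import Pool.Agent.Q277.SchmidtPowMain

/-!
# No simultaneous integrality of the coefficients between powered Apery-type sums

For every `s > 1` there is an `n` such that for no `r > s` the coefficients
`c_0^{(r,s)}, ..., c_n^{(r,s)}` are all integers: `n = 17`, `26` and `8` work for
`s = 2`, `s = 3` and `s ≥ 4`.
-/

open Finset

namespace Pool.Agent.Results.MP_ee0f4e_nt.Disproof

/-- `A_n^{(r)}` -/
def A (r n : ℕ) : ℚ := ∑ k ∈ range (n + 1), (n.choose k : ℚ) ^ r * ((n + k).choose k : ℚ) ^ r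

/-- `c` is the sequence of the coefficients `c_k^{(r,s)}`. -/
def IsCoeff (r s : ℕ) (c : ℕ → ℚ) : Prop :=
  ∀ n : ℕ, A r n = ∑ k ∈ range (n + 1), (n.choose k : ℚ) ^ s * ((n + k).choose k : ℚ) ^ s * c k

theorem isCoeff_iff (r s : ℕ) (c : ℕ → ℚ) : IsCoeff r s c ↔
    ∀ n : ℕ, ∑ k ∈ range (n + 1), (Q277.SchmidtPow.b n k : ℚ) ^ r
      = ∑ k ∈ range (n + 1), (Q277.SchmidtPow.b n k : ℚ) ^ s * c k := by
  unfold IsCoeff A Q277.SchmidtPow.b
  simp only [Nat.cast_mul, mul_pow]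

/-- The question of the problem has a negative answer, for every `s > 1`. -/
theorem result :
    (∀ r s : ℕ, ∃! c : ℕ → ℚ, IsCoeff r s c) ∧
    (∀ s : ℕ, 1 < s → ∀ r : ℕ, s < r → ∀ c : ℕ → ℚ, IsCoeff r s c →
      ∃ k ≤ (if s = 2 then 17 else if s = 3 then 26 else 8), ¬ ∃ z : ℤ, c k = z) ∧
    ¬ (∀ s : ℕ, 1 < s → ∀ n : ℕ, ∃ r : ℕ, s < r ∧
      ∀ c : ℕ → ℚ, IsCoeff r s c → ∀ k ≤ n, ∃ z : ℤ, c k = z) := by
  have key : ∀ s : ℕ, 1 < s → ∀ r : ℕ, s < r → ∀ c : ℕ → ℚ, IsCoeff r s c →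
      ∃ k ≤ (if s = 2 then 17 else if s = 3 then 26 else 8), ¬ ∃ z : ℤ, c k = z := by
    intro s hs r hrs c hc
    rw [isCoeff_iff] at hc
    obtain ⟨n, hn, h⟩ := Q277.SchmidtPow.main_rat (by omega) hrs c hc
    exact ⟨n, hn, fun ⟨z, hz⟩ => h z hz⟩
  have hex : ∀ r s : ℕ, ∃! c : ℕ → ℚ, IsCoeff r s c := by
    intro r s
    simp only [isCoeff_iff]
    exact Q277.SchmidtPow.exists_unique r s
  refine ⟨hex, key, fun H => ?_⟩
  obtain ⟨r, hr, h⟩ := H 4 (by norm_num) 8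
  obtain ⟨c, hc, -⟩ := hex r 4
  obtain ⟨k, hk, hk'⟩ := key 4 (by norm_num) r hr c hc
  exact hk' (h c hc k (by simpa using hk))

end Pool.Agent.Results.MP_ee0f4e_nt.Disproof
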